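import Pool.Agent.Helper50_HK.HMU

/-!
# CSP: finite support means vanishing at the two cusps
-/

set_option autoImplicit false

namespace Pool.Agent.HK.H50

open Polynomial

section
variable {F : Type} [Field F]

theorem toK_eq (hMTX : MTXStmt) (γ : GLA F) :
    (toK γ : GLK F) = mat (emb F (γ 0 0)) (emb F (γ 0 1)) (emb F (γ 1 0)) (emb F (γ 1 1)) ∧
    emb F (γ 0 0) * emb F (γ 1 1) - emb F (γ 0 1) * emb F (γ 1 0) ≠ 0 := by
  obtain ⟨-, h2, -, -, -, -, -, -, -, -, -, h12, -⟩ := hMTX F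
  obtain ⟨a, b⟩ := h2 (toK γ)
  obtain ⟨e1, e2, e3, e4⟩ := h12 γ
  rw [e1, e2, e3, e4] at a b
  exact ⟨a, b⟩

theorem det_isUnit (γ : GLA F) : IsUnit (γ 0 0 * γ 1 1 - γ 0 1 * γ 1 0) := by
  have h := (Matrix.isUnit_iff_isUnit_det (γ : Matrix (Fin 2) (Fin 2) F[X])).1 γ.isUnit
  rwa [Matrix.det_fin_two] at h

theorem conj_W (hLAU : LAUStmt) (hMTX : MTXStmt) {n : F[X]} (hn : n ≠ 0) {γ : GLA F}
    (hγ : γ ∈ Gam0 n) : ∃ γ' ∈ Gam0 n, (toK γ * Wmat n : GLK F) = Wmat n * toK γ' := by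
  obtain ⟨c, hc⟩ : n ∣ γ 1 0 := hγ
  obtain ⟨-, -, hmul, -, -, -, -, -, -, -, -, -, h13, -⟩ := hMTX F
  have hu : IsUnit (γ 1 1 * γ 0 0 - (-c) * (-(n * γ 0 1))) := by
    have := det_isUnit γ
    rw [hc] at this
    have e : γ 1 1 * γ 0 0 - (-c) * (-(n * γ 0 1)) = γ 0 0 * γ 1 1 - γ 0 1 * (n * c) := by ring
    rw [e]
    exact this
  obtain ⟨γ', k1, k2, k3, k4⟩ := h13 (γ 1 1) (-c) (-(n * γ 0 1)) (γ 0 0) hu
  have hn' : emb F n ≠ 0 := emb_ne_zero hLAU hn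
  have hW : (0 : Kinf F) * 0 - (-1) * emb F n ≠ 0 := by simpa using hn'
  refine ⟨γ', ?_, ?_⟩
  · show n ∣ γ' 1 0
    rw [k3]
    exact (dvd_neg.2 (dvd_mul_right _ _))
  · obtain ⟨t1, t2⟩ := toK_eq hMTX γ
    obtain ⟨t3, t4⟩ := toK_eq hMTX γ'
    rw [t1, t3]
    unfold Wmat
    rw [hmul _ _ _ _ _ _ _ _ t2 hW, hmul _ _ _ _ _ _ _ _ hW t4, k1, k2, k3, k4, hc]
    simp only [map_mul, map_neg]
    congr 1 <;> ring

end

section
variable {F : Type} [Field F] [Fintype F]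

omit [Fintype F] in
theorem finSupp_atk (hLAU : LAUStmt) (hMTX : MTXStmt) {n : F[X]} (hn : n ≠ 0)
    {φ : GLK F → ℤ} (h : FinSupp n φ) : FinSupp n (atk n φ) := by
  classical
  obtain ⟨S, hS⟩ := h
  refine ⟨S.image (fun s => (Wmat n)⁻¹ * s), fun g hg => ?_⟩
  obtain ⟨γ, hγ, s, hs, z, hz, k, hk, he⟩ := hS (Wmat n * g) hg
  obtain ⟨γ', hγ', hc⟩ := conj_W hLAU hMTX hn hγ
  refine ⟨γ', hγ', (Wmat n)⁻¹ * s, Finset.mem_image_of_mem _ hs, z, hz, k, hk, ?_⟩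
  have h1 : (Wmat n : GLK F)⁻¹ * toK γ = toK γ' * (Wmat n)⁻¹ := by
    rw [eq_mul_inv_iff_mul_eq, mul_assoc, hc, inv_mul_cancel_left]
  calc g = (Wmat n)⁻¹ * (Wmat n * g) := by rw [inv_mul_cancel_left]
    _ = ((Wmat n)⁻¹ * toK γ) * s * scal z * k := by rw [he]; simp only [mul_assoc]
    _ = _ := by rw [h1]; simp only [mul_assoc]

theorem val_low (hVAL : VALStmt) {n : F[X]} {φ : GLK F → ℤ} (hφ : IsHarm φ) (hi : Invt n φ)
    {j : ℤ} (hj : j ≤ 1) (u : Kinf F) :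
    val φ j u = ((Fintype.card F) ^ (1 - j).toNat) • val φ 1 0 := by
  obtain ⟨-, -, h3, h4⟩ := (hVAL F ℤ φ hφ).2.2.2.2.2.2 n hi
  rw [h3 j u hj]
  have := h4 (1 - j).toNat
  rw [← this]
  congr 1
  omega

theorem finSupp_zero (hLAU : LAUStmt) (hMTX : MTXStmt) (hVAL : VALStmt) {n : F[X]}
    {φ : GLK F → ℤ} (hφ : IsHarm φ) (hi : Invt n φ) (h : FinSupp n φ) : val φ 1 0 = 0 := by
  classical
  by_contra hr
  obtain ⟨S, hS⟩ := h
  have hq : 1 < Fintype.card F := Fintype.one_lt_card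
  obtain ⟨l1, l2, l3, l4, l5, l6, l7, l8, l9, l10, l11, l12, l13⟩ := hLAU F
  obtain ⟨m1, m2, m3, m4, m5, m6, m7, m8, m9, m10, m11, m12, m13, m14, m15, m16, m17⟩ := hMTX F
  set π : Kinf F := unif F with hπ
  have hne : ∀ m : ℕ, φ (mat (π ^ (1 - (m : ℤ))) 0 0 1) ≠ 0 := by
    intro m
    have h1 : val φ (1 - (m : ℤ)) 0 = ((Fintype.card F) ^ (1 - (1 - (m : ℤ))).toNat) • val φ 1 0 :=
      val_low hVAL hφ hi (by omega) 0
    have h2 : φ (mat (π ^ (1 - (m : ℤ))) 0 0 1) = val φ (1 - (m : ℤ)) 0 := rfl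
    rw [h2, h1, nsmul_eq_mul]
    refine mul_ne_zero ?_ hr
    have : (Fintype.card F) ^ (1 - (1 - (m : ℤ))).toNat ≠ 0 := pow_ne_zero _ (by omega)
    exact_mod_cast this
  choose γ hγ s hs z hz k hk he using fun m : ℕ => hS _ (hne m)
  obtain ⟨a, b, hab, hsab⟩ := Finite.exists_ne_map_eq_of_infinite (fun m : ℕ => (⟨s m, hs m⟩ : S))
  have hsab' : s a = s b := congrArg Subtype.val hsab
  -- the contradiction for `m < m'`
  have key : ∀ m m' : ℕ, m < m' → s m = s m' → False := by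
    intro m m' hlt hss
    set δ : GLA F := γ m' * (γ m)⁻¹ with hδ
    set i : GLK F := (k m')⁻¹ * k m with hi'
    set w : Kinf F := (z m')⁻¹ * z m with hw
    have hw0 : w ≠ 0 := mul_ne_zero (inv_ne_zero (hz m')) (hz m)
    have hiI : i ∈ Iwahori := m8 _ _ (m9 _ (hk m')) (hk m)
    have hrel : toK δ * mat (π ^ (1 - (m : ℤ))) 0 0 1 =
        mat (π ^ (1 - (m' : ℤ))) 0 0 1 * (scal w * i) := by
      have e1 : toK δ * mat (π ^ (1 - (m : ℤ))) 0 0 1 =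
          toK (γ m') * s m * scal (z m) * k m := by
        conv_lhs => rw [he m]
        rw [hδ, map_mul, map_inv]
        simp only [mul_assoc]
        rw [inv_mul_cancel_left]
      have e2 : toK (γ m') * s m = mat (π ^ (1 - (m' : ℤ))) 0 0 1 * (k m')⁻¹ * (scal (z m'))⁻¹ := by
        rw [eq_mul_inv_iff_mul_eq, eq_mul_inv_iff_mul_eq, hss]
        exact (he m').symm
      have e3 : (scal (z m') : GLK F)⁻¹ = scal ((z m')⁻¹) := by
        rw [inv_eq_iff_mul_eq_one, m7 _ _ (hz m') (inv_ne_zero (hz m')), mul_inv_cancel₀ (hz m')]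
        unfold scal
        exact m5
      rw [e1, e2, e3]
      simp only [mul_assoc]
      congr 1
      rw [← mul_assoc (scal _), m7 _ _ (inv_ne_zero (hz m')) (hz m), ← hw, ← mul_assoc,
        m6 w _ hw0, mul_assoc, hi']
    -- entries
    obtain ⟨t1, t2⟩ := toK_eq hMTX δ
    obtain ⟨i1, i2⟩ := m2 i
    obtain ⟨j1, j2, j3, j4, j5, j6⟩ := hiI
    have hπ0 : ∀ c : ℤ, π ^ c ≠ 0 := fun c => zpow_ne_zero _ l6
    have hL : toK δ * mat (π ^ (1 - (m : ℤ))) 0 0 1 =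
        mat (emb F (δ 0 0) * π ^ (1 - (m : ℤ))) (emb F (δ 0 1))
          (emb F (δ 1 0) * π ^ (1 - (m : ℤ))) (emb F (δ 1 1)) := by
      rw [t1, m3 _ _ _ _ _ _ _ _ t2 (by
        rw [mul_one, mul_zero, sub_zero]; exact hπ0 _)]
      simp only [mul_zero, mul_one, add_zero, zero_add]
    have hR : mat (π ^ (1 - (m' : ℤ))) 0 0 1 * (scal w * i) =
        mat (π ^ (1 - (m' : ℤ)) * (w * i 0 0)) (π ^ (1 - (m' : ℤ)) * (w * i 0 1))
          (w * i 1 0) (w * i 1 1) := by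
      have hd : w * i 0 0 * (w * i 1 1) - w * i 0 1 * (w * i 1 0) ≠ 0 := by
        have e : w * i 0 0 * (w * i 1 1) - w * i 0 1 * (w * i 1 0) =
            w ^ 2 * (i 0 0 * i 1 1 - i 0 1 * i 1 0) := by ring
        rw [e]
        exact mul_ne_zero (pow_ne_zero 2 hw0) i2
      have e1 : scal w * i = mat (w * i 0 0) (w * i 0 1) (w * i 1 0) (w * i 1 1) := by
        conv_lhs => rw [i1]
        unfold scal
        rw [m3 _ _ _ _ _ _ _ _ (by
          rw [mul_zero, sub_zero]; exact mul_ne_zero hw0 hw0) i2]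
        simp only [zero_mul, add_zero, zero_add]
      rw [e1, m3 _ _ _ _ _ _ _ _ (by
        rw [mul_one, mul_zero, sub_zero]; exact hπ0 _) hd]
      simp only [zero_mul, one_mul, add_zero, zero_add]
    have hdL : emb F (δ 0 0) * π ^ (1 - (m : ℤ)) * emb F (δ 1 1) -
        emb F (δ 0 1) * (emb F (δ 1 0) * π ^ (1 - (m : ℤ))) ≠ 0 := by
      have e : emb F (δ 0 0) * π ^ (1 - (m : ℤ)) * emb F (δ 1 1) -
        emb F (δ 0 1) * (emb F (δ 1 0) * π ^ (1 - (m : ℤ))) =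
        π ^ (1 - (m : ℤ)) *
          (emb F (δ 0 0) * emb F (δ 1 1) - emb F (δ 0 1) * emb F (δ 1 0)) := by ring
      rw [e]
      exact mul_ne_zero (hπ0 _) t2
    have hdR : π ^ (1 - (m' : ℤ)) * (w * i 0 0) * (w * i 1 1) -
        π ^ (1 - (m' : ℤ)) * (w * i 0 1) * (w * i 1 0) ≠ 0 := by
      have e : π ^ (1 - (m' : ℤ)) * (w * i 0 0) * (w * i 1 1) -
        π ^ (1 - (m' : ℤ)) * (w * i 0 1) * (w * i 1 0) =
        π ^ (1 - (m' : ℤ)) * (w ^ 2 * (i 0 0 * i 1 1 - i 0 1 * i 1 0)) := by ring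
      rw [e]
      exact mul_ne_zero (hπ0 _) (mul_ne_zero (pow_ne_zero 2 hw0) i2)
    obtain ⟨a1, a2, a3, a4⟩ := m1 _ _ _ _ hdL
    obtain ⟨b1, b2, b3, b4⟩ := m1 _ _ _ _ hdR
    rw [← hL, hrel, hR] at a1 a2 a3 a4
    rw [b1] at a1
    rw [b2] at a2
    rw [b3] at a3
    rw [b4] at a4
    -- the determinant
    obtain ⟨c, hc, hcd⟩ := Polynomial.isUnit_iff.1 (det_isUnit δ)
    have hc0 : c ≠ 0 := hc.ne_zero
    have hdet : π ^ (1 - (m : ℤ)) * cst F c =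
        π ^ (1 - (m' : ℤ)) * (w ^ 2 * (i 0 0 * i 1 1 - i 0 1 * i 1 0)) := by
      have e1 : cst F c = emb F (δ 0 0) * emb F (δ 1 1) - emb F (δ 0 1) * emb F (δ 1 0) := by
        rw [← l4, hcd, map_sub, map_mul, map_mul]
      rw [e1]
      calc π ^ (1 - (m : ℤ)) * (emb F (δ 0 0) * emb F (δ 1 1) - emb F (δ 0 1) * emb F (δ 1 0))
          = emb F (δ 0 0) * π ^ (1 - (m : ℤ)) * emb F (δ 1 1) -
            emb F (δ 0 1) * (emb F (δ 1 0) * π ^ (1 - (m : ℤ))) := by ring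
        _ = _ := by
            rw [← a1, ← a2, ← a3, ← a4]
            ring
    -- the valuation of `w`
    obtain ⟨l, u, hwu, hu1, hu2⟩ := l9 w hw0
    set D : Kinf F := i 0 0 * i 1 1 - i 0 1 * i 1 0 with hD
    have hD0 : InO 0 D ∧ HahnSeries.coeff D 0 ≠ 0 := by
      obtain ⟨p1, p2⟩ := l8 0 0 _ _ j1 j4
      obtain ⟨p3, p4⟩ := l8 0 1 _ _ j2 j3
      rw [add_zero] at p1 p2
      rw [zero_add] at p3
      constructor
      · intro x hx
        rw [hD, HahnSeries.coeff_sub, p1 x hx, p3 x (by omega), sub_zero]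
      · rw [hD, HahnSeries.coeff_sub, p2, p3 0 (by omega), sub_zero]
        exact mul_ne_zero j5 j6
    have huD : InO 0 (u ^ 2 * D) ∧ HahnSeries.coeff (u ^ 2 * D) 0 ≠ 0 := by
      obtain ⟨p1, p2⟩ := l8 0 0 _ _ hu1 hu1
      rw [add_zero] at p1 p2
      obtain ⟨p3, p4⟩ := l8 0 0 _ _ p1 hD0.1
      rw [add_zero] at p3 p4
      rw [pow_two]
      refine ⟨p3, ?_⟩
      rw [p4, p2]
      exact mul_ne_zero (mul_ne_zero hu2 hu2) hD0.2
    have hcoef := congrArg (fun x => HahnSeries.coeff x (1 - (m' : ℤ) + 2 * l)) hdet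
    have e2 : π ^ (1 - (m' : ℤ)) * (w ^ 2 * D) = π ^ (1 - (m' : ℤ) + 2 * l) * (u ^ 2 * D) := by
      rw [hwu, zpow_add₀ l6, mul_pow, ← zpow_natCast (π ^ l) 2, ← zpow_mul]
      have : l * ((2 : ℕ) : ℤ) = 2 * l := by push_cast; ring
      rw [this]
      ring
    rw [e2, l7, l7, sub_self] at hcoef
    have hl : (m' : ℤ) - m ≤ 2 * l := by
      by_contra hlt2
      have e3 : HahnSeries.coeff (cst F c) (1 - (m' : ℤ) + 2 * l - (1 - (m : ℤ))) = 0 := by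
        have := l3 c 1 (1 - (m' : ℤ) + 2 * l - (1 - (m : ℤ)))
        rw [mul_one] at this
        rw [this, HahnSeries.coeff_one, if_neg (by omega), mul_zero]
      rw [e3] at hcoef
      exact huD.2 hcoef.symm
    have hl1 : 1 ≤ l := by omega
    have hu3 : InO 0 (u * i 1 1) := by
      have := (l8 0 0 _ _ hu1 j4).1
      rwa [add_zero] at this
    have hδ0 : δ 1 1 = 0 := by
      apply l12
      intro x hx
      rw [← a4, hwu, mul_assoc, l7]
      exact hu3 _ (by omega)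
    rw [hδ0, map_zero] at a4
    rcases mul_eq_zero.1 a4 with h | h
    · exact hw0 h
    · apply j6
      rw [h]
      simp
  rcases lt_or_gt_of_ne hab with h | h
  · exact key a b h hsab'
  · exact key b a h hsab'.symm

theorem zero_finSupp (hLAU : LAUStmt) (hMTX : MTXStmt) (hVAL : VALStmt) (hRED : REDStmt)
    (hCOS : COSStmt) (hATK : ATKStmt) {n : F[X]} (hn : n.Monic) (hirr : Irreducible n)
    {φ : GLK F → ℤ} (hφ : IsHarm φ) (hi : Invt n φ) (h1 : val φ 1 0 = 0)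
    (h2 : val (atk n φ) 1 0 = 0) : FinSupp n φ := by
  classical
  obtain ⟨l1, l2, l3, l4, l5, l6, l7, l8, l9, l10, l11, l12, l13⟩ := hLAU F
  obtain ⟨m1, m2, m3, m4, m5, m6, m7, m8, m9, m10, m11, m12, m13, m14, m15, m16, m17⟩ := hMTX F
  obtain ⟨k1, k2, k3⟩ := hATK F ℤ n hn.ne_zero φ hφ hi
  set d : ℤ := (n.natDegree : ℤ) with hd
  have hπ0 : ∀ c : ℤ, (unif F : Kinf F) ^ c ≠ 0 := fun c => zpow_ne_zero _ l6
  have hn' : emb F n ≠ 0 := emb_ne_zero hLAU hn.ne_zero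
  -- the value at `(0 -1; π^j x)`
  have hval : ∀ (x : F[X]) (j : ℤ), φ (mat 0 (-1) 1 (emb F x) * mat (unif F ^ j) 0 0 1) ≠ 0 →
      2 - d ≤ j := by
    intro x j hne
    by_contra hlt
    apply hne
    have e1 : (mat 0 (-1) 1 (emb F x) * mat (unif F ^ j) 0 0 1 : GLK F) =
        Wmat n * mat (unif F ^ j / emb F n) (emb F x / emb F n) 0 1 := by
      unfold Wmat
      rw [m3 _ _ _ _ _ _ _ _ (by simp) (by
        rw [mul_one, mul_zero, sub_zero]; exact hπ0 _),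
        m3 _ _ _ _ _ _ _ _ (by simpa using hn') (by
        rw [mul_one, mul_zero, sub_zero]; exact div_ne_zero (hπ0 _) hn')]
      have f1 : emb F n * (unif F ^ j / emb F n) = unif F ^ j := by field_simp
      have f2 : emb F n * (emb F x / emb F n) = emb F x := by field_simp
      simp only [zero_mul, mul_zero, mul_one, one_mul, add_zero, zero_add, f1, f2]
    have e2 : φ (Wmat n * mat (unif F ^ j / emb F n) (emb F x / emb F n) 0 1) =
        atk n φ (1 * mat (unif F ^ j / emb F n) (emb F x / emb F n) 0 1) := by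
      rw [one_mul]
      rfl
    obtain ⟨u, hu1, hu2, hu3⟩ := l13 n hn
    obtain ⟨p1, p2⟩ := l10 u hu2 (by rw [hu3]; exact one_ne_zero)
    have hu0 : u ≠ 0 := by
      intro h0
      rw [h0] at hu3
      simp at hu3
    have e3 := (hVAL F ℤ (atk n φ) k1).2.1 1 (unif F ^ j / emb F n) (emb F x / emb F n) 1
      (j + d) u⁻¹ one_ne_zero (by
        rw [div_one, hu1, zpow_add₀ l6, zpow_neg, hd]
        have := hπ0 (n.natDegree : ℤ)
        field_simp) p1 (by rw [p2, hu3]; simp)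
    rw [e1, e2, e3, div_one, one_mul]
    have e4 : atk n φ (mat (unif F ^ (j + d)) (emb F x / emb F n) 0 1) =
        val (atk n φ) (j + d) (emb F x / emb F n) := rfl
    rw [e4, val_low hVAL k1 k2 (by omega), h2, smul_zero]
  set S : Finset (GLK F) := ((Rs n) ×ˢ (Finset.Icc (2 - d) 1)).biUnion fun p =>
    {mat 0 (-1) 1 (emb F p.1) * mat (unif F ^ p.2) 0 0 1,
      mat 0 (-1) 1 (emb F p.1) * mat (unif F ^ p.2) 0 0 1 * flipM} with hS
  refine ⟨S, fun g hg => ?_⟩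
  obtain ⟨γ, j, z, i, hj, hz, hiI, hcase⟩ := hRED F g
  have hne : φ (toK γ * mat (unif F ^ j) 0 0 1) ≠ 0 := by
    rcases hcase with h | h
    · rw [h, hφ.inv _ _ _ hz hiI] at hg
      exact hg
    · rw [h, hφ.inv _ _ _ hz hiI, hφ.rev] at hg
      intro h0
      rw [h0, neg_zero] at hg
      exact hg rfl
  rcases (hCOS F n hn hirr).1 γ with hγ | ⟨δ, hδ, x, hx, hγx⟩
  · exfalso
    apply hne
    rw [hi γ hγ]
    have e4 : φ (mat (unif F ^ j) 0 0 1) = val φ j 0 := rfl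
    rw [e4, val_low hVAL hφ hi hj, h1, smul_zero]
  · rw [hγx, mul_assoc, hi δ hδ] at hne
    have hj2 := hval x j hne
    have hmem : (x, j) ∈ (Rs n) ×ˢ (Finset.Icc (2 - d) 1) :=
      Finset.mem_product.2 ⟨mem_Rs.2 hx, Finset.mem_Icc.2 ⟨hj2, hj⟩⟩
    rcases hcase with h | h
    · refine ⟨δ, hδ, mat 0 (-1) 1 (emb F x) * mat (unif F ^ j) 0 0 1,
        Finset.mem_biUnion.2 ⟨(x, j), hmem, by simp⟩, z, hz, i, hiI, ?_⟩
      rw [h, hγx]
      simp only [mul_assoc]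
    · refine ⟨δ, hδ, mat 0 (-1) 1 (emb F x) * mat (unif F ^ j) 0 0 1 * flipM,
        Finset.mem_biUnion.2 ⟨(x, j), hmem, by simp⟩, z, hz, i, hiI, ?_⟩
      rw [h, hγx]
      simp only [mul_assoc]

end

theorem csp (hLAU : LAUStmt) (hMTX : MTXStmt) (hVAL : VALStmt) (hRED : REDStmt)
    (hCOS : COSStmt) (hATK : ATKStmt) : CSPStmt := by
  intro F _ _ n hn hirr φ hφ hi
  obtain ⟨k1, k2, k3⟩ := hATK F ℤ n hn.ne_zero φ hφ hi
  refine ⟨fun h => ⟨finSupp_zero hLAU hMTX hVAL hφ hi h, ?_⟩, fun h => ?_⟩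
  · exact finSupp_zero hLAU hMTX hVAL k1 k2 (finSupp_atk hLAU hMTX hn.ne_zero h)
  · exact zero_finSupp hLAU hMTX hVAL hRED hCOS hATK hn hirr hφ hi h.1 h.2

end Pool.Agent.HK.H50
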