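import Pool.Agent.Helper8_HK.Stmt1

/-!
# HMU: products of Hecke operators
-/

set_option autoImplicit false

namespace Pool.Agent.HK.H50

open Polynomial

section residues

variable {F : Type} [Field F] [Fintype F]

theorem finite_lt (P : F[X]) : {b : F[X] | b.degree < P.degree}.Finite := by
  by_cases hP : P = 0
  · subst hP
    refine Set.finite_empty.subset fun b hb => ?_
    simp at hb
  · have h1 : {b : F[X] | b.degree < P.degree} = (Polynomial.degreeLT F P.natDegree : Set F[X]) := by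
      ext b
      simp [Polynomial.mem_degreeLT, Polynomial.degree_eq_natDegree hP]
    rw [h1]
    have h2 : Finite (Polynomial.degreeLT F P.natDegree) :=
      Finite.of_equiv _ (Polynomial.degreeLTEquiv F P.natDegree).symm.toEquiv
    exact Set.toFinite _

/-- The reduced residues modulo `P`. -/
noncomputable def Rs (P : F[X]) : Finset F[X] := (finite_lt P).toFinset

theorem mem_Rs {P b : F[X]} : b ∈ Rs P ↔ b.degree < P.degree := by
  simp [Rs]

theorem modM_mem {P : F[X]} (hP : P.Monic) (x : F[X]) : x %ₘ P ∈ Rs P := by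
  rw [mem_Rs]
  exact Polynomial.degree_modByMonic_lt x hP

theorem eq_of_dvd {P x y : F[X]} (hx : x ∈ Rs P) (hy : y ∈ Rs P) (h : P ∣ x - y) : x = y := by
  rw [mem_Rs] at hx hy
  have h1 : (x - y).degree < P.degree :=
    lt_of_le_of_lt (Polynomial.degree_sub_le x y) (max_lt hx hy)
  by_contra hne
  exact absurd (Polynomial.degree_le_of_dvd h (sub_ne_zero.2 hne)) (not_le.2 h1)

omit [Fintype F] in
theorem dvd_modM_sub {P : F[X]} (x : F[X]) : P ∣ x %ₘ P - x := by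
  rw [Polynomial.modByMonic_eq_sub_mul_div]
  exact ⟨-(x /ₘ P), by ring⟩

variable {R : Type} [AddCommGroup R]

/-- Substitution of an injective map modulo `P`. -/
theorem sum_sub {P : F[X]} (hP : P.Monic) (f : F[X] → R) (hf : ∀ x s, f (x + P * s) = f x)
    (σ : F[X] → F[X]) (hσ : ∀ x y, P ∣ σ x - σ y → P ∣ x - y) :
    ∑ b ∈ Rs P, f (σ b) = ∑ b ∈ Rs P, f b := by
  classical
  have hf' : ∀ x y, P ∣ x - y → f x = f y := by
    rintro x y ⟨s, hs⟩
    rw [show x = y + P * s by rw [← hs]; ring, hf]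
  have hinj : Set.InjOn (fun b => σ b %ₘ P) (Rs P : Set F[X]) := by
    intro x hx y hy h
    have h1 : P ∣ σ x - σ y := by
      have e1 := dvd_modM_sub (P := P) (σ x)
      have e2 := dvd_modM_sub (P := P) (σ y)
      have e3 : σ x %ₘ P = σ y %ₘ P := h
      have e4 : σ x - σ y = (σ y %ₘ P - σ y) - (σ x %ₘ P - σ x) := by rw [e3]; ring
      rw [e4]
      exact dvd_sub e2 e1
    exact eq_of_dvd hx hy (hσ x y h1)
  have himg : (Rs P).image (fun b => σ b %ₘ P) = Rs P := by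
    apply Finset.eq_of_subset_of_card_le
    · intro z hz
      obtain ⟨b, _, rfl⟩ := Finset.mem_image.mp hz
      exact modM_mem hP _
    · rw [Finset.card_image_of_injOn hinj]
  calc ∑ b ∈ Rs P, f (σ b) = ∑ b ∈ Rs P, f (σ b %ₘ P) := by
        refine Finset.sum_congr rfl fun b _ => ?_
        exact (hf' _ _ (dvd_modM_sub (σ b))).symm
    _ = ∑ z ∈ (Rs P).image (fun b => σ b %ₘ P), f z := by
        rw [Finset.sum_image hinj]
    _ = _ := by rw [himg]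

/-- Residues modulo a product. -/
theorem sum_prod {P Q : F[X]} (hP : P.Monic) (hQ : Q.Monic) (G : F[X] → R) :
    ∑ x ∈ Rs (P * Q), G x = ∑ u ∈ Rs P, ∑ v ∈ Rs Q, G (u + P * v) := by
  classical
  rw [← Finset.sum_product']
  symm
  refine Finset.sum_nbij' (fun p => p.1 + P * p.2) (fun x => (x %ₘ P, x /ₘ P)) ?_ ?_ ?_ ?_ ?_
  · rintro ⟨u, v⟩ huv
    rw [Finset.mem_product, mem_Rs, mem_Rs] at huv
    rw [mem_Rs]
    refine lt_of_le_of_lt (Polynomial.degree_add_le _ _) (max_lt ?_ ?_)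
    · refine lt_of_lt_of_le huv.1 ?_
      exact Polynomial.degree_le_of_dvd (dvd_mul_right P Q) (hP.mul hQ).ne_zero
    · rw [Polynomial.degree_mul, Polynomial.degree_mul]
      by_cases hv : v = 0
      · subst hv
        rw [Polynomial.degree_zero, WithBot.add_bot, ← Polynomial.degree_mul]
        exact Ne.bot_lt (Polynomial.degree_ne_bot.2 (hP.mul hQ).ne_zero)
      · have h1 := huv.2
        rw [Polynomial.degree_eq_natDegree hv, Polynomial.degree_eq_natDegree hQ.ne_zero] at h1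
        rw [Polynomial.degree_eq_natDegree hv, Polynomial.degree_eq_natDegree hQ.ne_zero,
          Polynomial.degree_eq_natDegree hP.ne_zero]
        have h2 : v.natDegree < Q.natDegree := by exact_mod_cast h1
        exact_mod_cast Nat.add_lt_add_left h2 _
  · intro x hx
    rw [Finset.mem_product]
    refine ⟨modM_mem hP x, ?_⟩
    rw [mem_Rs] at hx ⊢
    have hdiv := Polynomial.modByMonic_add_div x P
    have hmod := Polynomial.degree_modByMonic_lt x hP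
    by_contra hge
    rw [not_lt] at hge
    have hv : x /ₘ P ≠ 0 := by
      intro h0
      rw [h0, Polynomial.degree_zero] at hge
      exact hQ.ne_zero (Polynomial.degree_eq_bot.1 (le_bot_iff.1 hge))
    have h1 : (P * Q).degree ≤ (P * (x /ₘ P)).degree := by
      rw [Polynomial.degree_mul, Polynomial.degree_mul]
      exact add_le_add_right hge _
    have h2 : P.degree ≤ (P * (x /ₘ P)).degree :=
      Polynomial.degree_le_of_dvd (dvd_mul_right _ _) (mul_ne_zero hP.ne_zero hv)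
    have h3 : (x %ₘ P + P * (x /ₘ P)).degree = (P * (x /ₘ P)).degree :=
      Polynomial.degree_add_eq_right_of_degree_lt (lt_of_lt_of_le hmod h2)
    rw [hdiv] at h3
    rw [← h3] at h1
    exact absurd h1 (not_le.2 hx)
  · rintro ⟨u, v⟩ huv
    rw [Finset.mem_product, mem_Rs, mem_Rs] at huv
    have := Polynomial.div_modByMonic_unique (f := u + P * v) v u hP ⟨by ring, huv.1⟩
    simp only
    rw [this.1, this.2]
  · intro x _
    exact Polynomial.modByMonic_add_div x P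
  · rintro ⟨u, v⟩ _
    rfl

/-- The inner sum of a product of two Hecke operators. -/
theorem key {h δ α d' : F[X]} (hh : h.Monic) (hδ : δ.Monic) (hd' : d'.Monic)
    (hco : IsCoprime α δ) (f : F[X] → R) (hf : ∀ x s, f (x + (d' * (h * δ)) * s) = f x) :
    ∑ b ∈ Rs (h * δ), ∑ b' ∈ Rs d', f (h * α * b + b' * (h * δ)) =
      (Rs h).card • ∑ w ∈ Rs (δ * d'), f (h * w) := by
  -- the function `Φ`
  set Φ : F[X] → R := fun y => ∑ b' ∈ Rs d', f (y + b' * (h * δ)) with hΦ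
  have hΦp : ∀ y s, Φ (y + (h * δ) * s) = Φ y := by
    intro y s
    have := sum_sub hd' (fun b' => f (y + b' * (h * δ)))
      (fun x t => by
        have e : y + (x + d' * t) * (h * δ) = (y + x * (h * δ)) + (d' * (h * δ)) * t := by ring
        simp only [e, hf]) (fun b' => b' + s) (fun x z hxz => by simpa using hxz)
    rw [hΦ]
    simp only
    rw [← this]
    refine Finset.sum_congr rfl fun b' _ => ?_
    congr 1
    ring
  have h1 : ∑ b ∈ Rs (h * δ), ∑ b' ∈ Rs d', f (h * α * b + b' * (h * δ)) =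
      ∑ b ∈ Rs (δ * h), Φ (h * α * b) := by
    rw [mul_comm δ h]
  rw [h1, sum_prod hδ hh]
  have h2 : ∀ u v, Φ (h * α * (u + δ * v)) = Φ (h * (α * u)) := by
    intro u v
    have e : h * α * (u + δ * v) = h * (α * u) + (h * δ) * (α * v) := by ring
    rw [e, hΦp]
  simp only [h2, Finset.sum_const]
  rw [← Finset.smul_sum]
  congr 1
  have h3 := sum_sub hδ (fun u => Φ (h * u))
    (fun x s => by
      have e : h * (x + δ * s) = h * x + (h * δ) * s := by ring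
      simp only [e, hΦp]) (fun u => α * u) (fun x z hxz => by
      rw [← mul_sub] at hxz
      exact hco.symm.dvd_of_dvd_mul_left hxz)
  rw [h3, sum_prod hδ hd']
  refine Finset.sum_congr rfl fun u _ => ?_
  rw [hΦ]
  refine Finset.sum_congr rfl fun b' _ => ?_
  congr 1
  ring

end residues

section gcds

variable {F : Type} [Field F]

theorem exists_gcd {x y : F[X]} (hx : x.Monic) (hy : y.Monic) :
    ∃ g u v : F[X], g.Monic ∧ u.Monic ∧ v.Monic ∧ x = g * u ∧ y = g * v ∧ IsCoprime u v := by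
  classical
  set g0 := EuclideanDomain.gcd x y with hg0
  have hg0ne : g0 ≠ 0 := by
    intro h
    have := EuclideanDomain.gcd_dvd_left x y
    rw [← hg0, h, zero_dvd_iff] at this
    exact hx.ne_zero this
  set c := g0.leadingCoeff with hc
  have hc0 : c ≠ 0 := Polynomial.leadingCoeff_ne_zero.2 hg0ne
  set g := C c⁻¹ * g0 with hg
  have hgm : g.Monic := by
    rw [hg, Polynomial.Monic, Polynomial.leadingCoeff_mul, Polynomial.leadingCoeff_C, ← hc,
      inv_mul_cancel₀ hc0]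
  have hg' : g0 = C c * g := by
    rw [hg, ← mul_assoc, ← Polynomial.C_mul, mul_inv_cancel₀ hc0, Polynomial.C_1, one_mul]
  have hdvd1 : g ∣ x := (Dvd.intro_left _ hg'.symm).trans (EuclideanDomain.gcd_dvd_left x y)
  have hdvd2 : g ∣ y := (Dvd.intro_left _ hg'.symm).trans (EuclideanDomain.gcd_dvd_right x y)
  obtain ⟨u, hu⟩ := hdvd1
  obtain ⟨v, hv⟩ := hdvd2
  refine ⟨g, u, v, hgm, ?_, ?_, hu, hv, ?_⟩
  · rw [hu] at hx
    exact hgm.of_mul_monic_left hx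
  · rw [hv] at hy
    exact hgm.of_mul_monic_left hy
  · obtain ⟨a, b, hab⟩ : ∃ a b : F[X], a * x + b * y = g := by
      refine ⟨C c⁻¹ * EuclideanDomain.gcdA x y, C c⁻¹ * EuclideanDomain.gcdB x y, ?_⟩
      have := EuclideanDomain.gcd_eq_gcd_ab x y
      rw [← hg0] at this
      rw [hg, this]
      ring
    refine ⟨a, b, ?_⟩
    apply mul_left_cancel₀ hgm.ne_zero
    rw [mul_one]
    calc g * (a * u + b * v) = a * (g * u) + b * (g * v) := by ring
      _ = a * x + b * y := by rw [← hu, ← hv]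
      _ = g := hab

/-- The monic greatest common divisor. -/
noncomputable def gg (x y : F[X]) : F[X] :=
  open Classical in
  if h : x.Monic ∧ y.Monic then (exists_gcd h.1 h.2).choose else 1

/-- The first cofactor. -/
noncomputable def qx (x y : F[X]) : F[X] :=
  open Classical in
  if h : x.Monic ∧ y.Monic then (exists_gcd h.1 h.2).choose_spec.choose else 1

/-- The second cofactor. -/
noncomputable def qy (x y : F[X]) : F[X] :=
  open Classical in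
  if h : x.Monic ∧ y.Monic then (exists_gcd h.1 h.2).choose_spec.choose_spec.choose else 1

theorem gg_spec {x y : F[X]} (hx : x.Monic) (hy : y.Monic) :
    (gg x y).Monic ∧ (qx x y).Monic ∧ (qy x y).Monic ∧ x = gg x y * qx x y ∧
      y = gg x y * qy x y ∧ IsCoprime (qx x y) (qy x y) := by
  have h : x.Monic ∧ y.Monic := ⟨hx, hy⟩
  have := (exists_gcd h.1 h.2).choose_spec.choose_spec.choose_spec
  unfold gg qx qy
  rw [dif_pos h, dif_pos h, dif_pos h]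
  exact this

theorem gg_uniq {g u v : F[X]} (hg : g.Monic) (hu : u.Monic) (hv : v.Monic)
    (hco : IsCoprime u v) :
    gg (g * u) (g * v) = g ∧ qx (g * u) (g * v) = u ∧ qy (g * u) (g * v) = v := by
  obtain ⟨h1, h2, h3, h4, h5, h6⟩ := gg_spec (hg.mul hu) (hg.mul hv)
  set g' := gg (g * u) (g * v)
  set u' := qx (g * u) (g * v)
  set v' := qy (g * u) (g * v)
  have d1 : g ∣ g' := by
    obtain ⟨a, b, hab⟩ := h6
    have : g' = g * (a * u + b * v) := by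
      calc g' = g' * (a * u' + b * v') := by rw [hab, mul_one]
        _ = a * (g' * u') + b * (g' * v') := by ring
        _ = a * (g * u) + b * (g * v) := by rw [← h4, ← h5]
        _ = _ := by ring
    exact ⟨_, this⟩
  have d2 : g' ∣ g := by
    obtain ⟨a, b, hab⟩ := hco
    have : g = g' * (a * u' + b * v') := by
      calc g = g * (a * u + b * v) := by rw [hab, mul_one]
        _ = a * (g * u) + b * (g * v) := by ring
        _ = a * (g' * u') + b * (g' * v') := by rw [← h4, ← h5]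
        _ = _ := by ring
    exact ⟨_, this⟩
  have e : g' = g := Polynomial.eq_of_monic_of_associated h1 hg (associated_of_dvd_dvd d2 d1)
  refine ⟨e, ?_, ?_⟩
  · rw [e] at h4
    exact (mul_left_cancel₀ hg.ne_zero h4).symm
  · rw [e] at h5
    exact (mul_left_cancel₀ hg.ne_zero h5).symm

end gcds

section hecke

variable {F : Type} [Field F] [Fintype F]

/-- The divisor pairs. -/
theorem dv_finite (n m : F[X]) :
    {p : F[X] × F[X] | p.1.Monic ∧ p.2.Monic ∧ p.1 * p.2 = m ∧ IsCoprime p.1 n}.Finite := by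
  by_cases hm : m = 0
  · refine Set.finite_empty.subset fun p hp => ?_
    obtain ⟨h1, h2, h3, _⟩ := hp
    rw [hm] at h3
    exact (mul_ne_zero h1.ne_zero h2.ne_zero h3)
  · refine ((finite_lt (X * m)).prod (finite_lt (X * m))).subset fun p hp => ?_
    obtain ⟨h1, h2, h3, _⟩ := hp
    have hlt : m.degree < (X * m).degree := by
      rw [Polynomial.degree_mul, Polynomial.degree_X, Polynomial.degree_eq_natDegree hm]
      exact_mod_cast Nat.lt_add_of_pos_left one_pos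
    refine ⟨lt_of_le_of_lt ?_ hlt, lt_of_le_of_lt ?_ hlt⟩
    · exact Polynomial.degree_le_of_dvd ⟨_, h3.symm⟩ hm
    · exact Polynomial.degree_le_of_dvd ⟨_, (mul_comm p.2 p.1 ▸ h3).symm⟩ hm

/-- The divisor pairs, as a finset. -/
noncomputable def Dv (n m : F[X]) : Finset (F[X] × F[X]) := (dv_finite n m).toFinset

theorem mem_Dv {n m : F[X]} {p : F[X] × F[X]} :
    p ∈ Dv n m ↔ p.1.Monic ∧ p.2.Monic ∧ p.1 * p.2 = m ∧ IsCoprime p.1 n := by
  simp [Dv]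

variable {R : Type} [AddCommGroup R]

theorem sum_HIdx (n m : F[X]) (G : F[X] × F[X] × F[X] → R) :
    ∑ᶠ x ∈ HIdx n m, G x = ∑ p ∈ Dv n m, ∑ b ∈ Rs p.2, G (p.1, b, p.2) := by
  classical
  set T : Finset (F[X] × F[X] × F[X]) :=
    ((Dv n m).sigma (fun p => Rs p.2)).image (fun s => (s.1.1, s.2, s.1.2)) with hT
  have h1 : HIdx n m = (T : Set (F[X] × F[X] × F[X])) := by
    ext ⟨a, b, d⟩
    rw [hT]
    simp only [HIdx, Finset.coe_image, Set.mem_image, Finset.mem_coe, Finset.mem_sigma]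
    constructor
    · rintro ⟨h1, h2, h3, h4, h5⟩
      exact ⟨⟨(a, d), b⟩, ⟨mem_Dv.2 ⟨h1, h2, h3, h4⟩, mem_Rs.2 h5⟩, rfl⟩
    · rintro ⟨⟨⟨a', d'⟩, b'⟩, ⟨h1, h2⟩, h3⟩
      simp only [Prod.mk.injEq] at h3
      obtain ⟨rfl, rfl, rfl⟩ := h3
      obtain ⟨k1, k2, k3, k4⟩ := mem_Dv.1 h1
      exact ⟨k1, k2, k3, k4, mem_Rs.1 h2⟩
  rw [h1, finsum_mem_coe_finset, hT, Finset.sum_image, Finset.sum_sigma]
  rintro ⟨⟨a, d⟩, b⟩ _ ⟨⟨a', d'⟩, b'⟩ _ h
  simp only [Prod.mk.injEq] at h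
  obtain ⟨rfl, rfl, rfl⟩ := h
  rfl

/-- The value at a triple. -/
noncomputable def ff (φ : GLK F → R) (g : GLK F) (A B D : F[X]) : R := φ (hmat (A, B, D) * g)

omit [Fintype F] in
theorem emb_ne_zero (hLAU : LAUStmt) {a : F[X]} (ha : a ≠ 0) : emb F a ≠ 0 := by
  intro h
  apply ha
  ext i
  rw [← (hLAU F).1 a i, h]
  simp

omit [Fintype F] in
theorem hmat_mul (hLAU : LAUStmt) (hMTX : MTXStmt) {a b d a' b' d' : F[X]} (ha : a ≠ 0)
    (hd : d ≠ 0) (ha' : a' ≠ 0) (hd' : d' ≠ 0) :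
    (hmat (a', b', d') * hmat (a, b, d) : GLK F) = hmat (a' * a, a' * b + b' * d, d' * d) := by
  have h1 := (hMTX F).2.2.1 (emb F a') (emb F b') 0 (emb F d') (emb F a) (emb F b) 0 (emb F d)
    (by
      rw [mul_zero, sub_zero]
      exact mul_ne_zero (emb_ne_zero hLAU ha') (emb_ne_zero hLAU hd'))
    (by
      rw [mul_zero, sub_zero]
      exact mul_ne_zero (emb_ne_zero hLAU ha) (emb_ne_zero hLAU hd))
  unfold hmat
  rw [h1]
  simp only [mul_zero, zero_mul, add_zero, zero_add, map_mul, map_add]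

omit [Fintype F] in
theorem ff_per (hLAU : LAUStmt) (hMTX : MTXStmt) {n : F[X]} {φ : GLK F → R} (hφ : Invt n φ)
    (g : GLK F) {A D : F[X]} (hA : A ≠ 0) (hD : D ≠ 0) (B s : F[X]) :
    ff φ g A (B + D * s) D = ff φ g A B D := by
  obtain ⟨γ, hγ, hγ'⟩ := (hMTX F).2.2.2.2.2.2.2.2.2.2.2.2.2.1 s n
  have h1 : (mat 1 (emb F s) 0 1 : GLK F) = hmat (1, s, 1) := by
    unfold hmat
    simp only [map_one]
  have h2 : (hmat (A, B + D * s, D) : GLK F) = toK γ * hmat (A, B, D) := by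
    rw [hγ', h1, hmat_mul hLAU hMTX hA hD one_ne_zero one_ne_zero]
    congr 2
    · ring
    · rw [one_mul, one_mul, mul_comm D s]
  unfold ff
  rw [h2, mul_assoc]
  exact hφ γ hγ _

theorem comp_eq (hLAU : LAUStmt) (hMTX : MTXStmt) (n m m' : F[X]) (φ : GLK F → R) (g : GLK F) :
    hecke n m (hecke n m' φ) g =
      ∑ p ∈ Dv n m, ∑ p' ∈ Dv n m', ∑ b ∈ Rs p.2, ∑ b' ∈ Rs p'.2,
        ff φ g (p'.1 * p.1) (p'.1 * b + b' * p.2) (p'.2 * p.2) := by
  unfold hecke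
  rw [sum_HIdx]
  refine Finset.sum_congr rfl fun p hp => ?_
  rw [Finset.sum_comm (s := Dv n m')]
  refine Finset.sum_congr rfl fun b _ => ?_
  rw [sum_HIdx]
  refine Finset.sum_congr rfl fun p' hp' => Finset.sum_congr rfl fun b' _ => ?_
  obtain ⟨h1, h2, _, _⟩ := mem_Dv.1 hp
  obtain ⟨h3, h4, _, _⟩ := mem_Dv.1 hp'
  unfold ff
  rw [← mul_assoc, hmat_mul hLAU hMTX h1.ne_zero h2.ne_zero h3.ne_zero h4.ne_zero]

/-- The inner sum. -/
noncomputable def SS (φ : GLK F → R) (g : GLK F) (p p' : F[X] × F[X]) : R :=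
  (Rs (gg p'.1 p.2)).card •
    ∑ w ∈ Rs (qy p'.1 p.2 * p'.2), ff φ g (p'.1 * p.1) (gg p'.1 p.2 * w) (p'.2 * p.2)

theorem inner_eq (hLAU : LAUStmt) (hMTX : MTXStmt) {n m m' : F[X]} {φ : GLK F → R}
    (hφ : Invt n φ) (g : GLK F) {p p' : F[X] × F[X]} (hp : p ∈ Dv n m) (hp' : p' ∈ Dv n m') :
    ∑ b ∈ Rs p.2, ∑ b' ∈ Rs p'.2,
        ff φ g (p'.1 * p.1) (p'.1 * b + b' * p.2) (p'.2 * p.2) = SS φ g p p' := by
  obtain ⟨h1, h2, _, _⟩ := mem_Dv.1 hp
  obtain ⟨h3, h4, _, _⟩ := mem_Dv.1 hp'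
  obtain ⟨k1, _, k3, k4, k5, k6⟩ := gg_spec h3 h2
  have h5 := key k1 k3 h4 k6 (fun B => ff φ g (p'.1 * p.1) B (p'.2 * p.2)) (fun x s => by
    rw [← k5]
    exact ff_per hLAU hMTX hφ g (mul_ne_zero h3.ne_zero h1.ne_zero)
      (mul_ne_zero h4.ne_zero h2.ne_zero) x s)
  unfold SS
  rw [← k4, ← k5] at h5
  exact h5

/-- The involution. -/
noncomputable def inv2 (q : (F[X] × F[X]) × (F[X] × F[X])) : (F[X] × F[X]) × (F[X] × F[X]) :=
  ((gg q.2.1 q.1.2 * qx q.1.1 q.2.2, gg q.1.1 q.2.2 * qy q.2.1 q.1.2),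
   (gg q.1.1 q.2.2 * qx q.2.1 q.1.2, gg q.2.1 q.1.2 * qy q.1.1 q.2.2))

theorem inv2_mem {n m m' : F[X]} {q : (F[X] × F[X]) × (F[X] × F[X])}
    (hq : q ∈ Dv n m ×ˢ Dv n m') : inv2 q ∈ Dv n m ×ˢ Dv n m' := by
  obtain ⟨hp, hp'⟩ := Finset.mem_product.1 hq
  obtain ⟨h1, h2, h3, h4⟩ := mem_Dv.1 hp
  obtain ⟨h1', h2', h3', h4'⟩ := mem_Dv.1 hp'
  obtain ⟨e1, e2, e3, e4, e5, e6⟩ := gg_spec h1 h2'
  obtain ⟨f1, f2, f3, f4, f5, f6⟩ := gg_spec h1' h2
  refine Finset.mem_product.2 ⟨mem_Dv.2 ⟨f1.mul e2, e1.mul f3, ?_, ?_⟩,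
    mem_Dv.2 ⟨e1.mul f2, f1.mul e3, ?_, ?_⟩⟩
  · show gg q.2.1 q.1.2 * qx q.1.1 q.2.2 * (gg q.1.1 q.2.2 * qy q.2.1 q.1.2) = m
    calc gg q.2.1 q.1.2 * qx q.1.1 q.2.2 * (gg q.1.1 q.2.2 * qy q.2.1 q.1.2)
        = (gg q.1.1 q.2.2 * qx q.1.1 q.2.2) * (gg q.2.1 q.1.2 * qy q.2.1 q.1.2) := by ring
      _ = m := by rw [← e4, ← f5, h3]
  · exact IsCoprime.mul_left (IsCoprime.of_isCoprime_of_dvd_left h4' ⟨_, f4⟩)
      (IsCoprime.of_isCoprime_of_dvd_left h4 (Dvd.intro_left _ e4.symm))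
  · show gg q.1.1 q.2.2 * qx q.2.1 q.1.2 * (gg q.2.1 q.1.2 * qy q.1.1 q.2.2) = m'
    calc gg q.1.1 q.2.2 * qx q.2.1 q.1.2 * (gg q.2.1 q.1.2 * qy q.1.1 q.2.2)
        = (gg q.2.1 q.1.2 * qx q.2.1 q.1.2) * (gg q.1.1 q.2.2 * qy q.1.1 q.2.2) := by ring
      _ = m' := by rw [← f4, ← e5, h3']
  · exact IsCoprime.mul_left (IsCoprime.of_isCoprime_of_dvd_left h4 ⟨_, e4⟩)
      (IsCoprime.of_isCoprime_of_dvd_left h4' (Dvd.intro_left _ f4.symm))

theorem inv2_inv2 {n m m' : F[X]} {q : (F[X] × F[X]) × (F[X] × F[X])}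
    (hq : q ∈ Dv n m ×ˢ Dv n m') : inv2 (inv2 q) = q := by
  obtain ⟨hp, hp'⟩ := Finset.mem_product.1 hq
  obtain ⟨h1, h2, h3, h4⟩ := mem_Dv.1 hp
  obtain ⟨h1', h2', h3', h4'⟩ := mem_Dv.1 hp'
  obtain ⟨e1, e2, e3, e4, e5, e6⟩ := gg_spec h1 h2'
  obtain ⟨f1, f2, f3, f4, f5, f6⟩ := gg_spec h1' h2
  obtain ⟨u1, u2, u3⟩ := gg_uniq f1 e2 e3 e6
  obtain ⟨v1, v2, v3⟩ := gg_uniq e1 f2 f3 f6
  have hd : inv2 (inv2 q) =
      ((gg (gg q.1.1 q.2.2 * qx q.2.1 q.1.2) (gg q.1.1 q.2.2 * qy q.2.1 q.1.2) *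
          qx (gg q.2.1 q.1.2 * qx q.1.1 q.2.2) (gg q.2.1 q.1.2 * qy q.1.1 q.2.2),
        gg (gg q.2.1 q.1.2 * qx q.1.1 q.2.2) (gg q.2.1 q.1.2 * qy q.1.1 q.2.2) *
          qy (gg q.1.1 q.2.2 * qx q.2.1 q.1.2) (gg q.1.1 q.2.2 * qy q.2.1 q.1.2)),
       (gg (gg q.2.1 q.1.2 * qx q.1.1 q.2.2) (gg q.2.1 q.1.2 * qy q.1.1 q.2.2) *
          qx (gg q.1.1 q.2.2 * qx q.2.1 q.1.2) (gg q.1.1 q.2.2 * qy q.2.1 q.1.2),
        gg (gg q.1.1 q.2.2 * qx q.2.1 q.1.2) (gg q.1.1 q.2.2 * qy q.2.1 q.1.2) *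
          qy (gg q.2.1 q.1.2 * qx q.1.1 q.2.2) (gg q.2.1 q.1.2 * qy q.1.1 q.2.2))) := rfl
  rw [hd, u1, u2, u3, v1, v2, v3, ← e4, ← e5, ← f4, ← f5]

theorem SS_inv2 {n m m' : F[X]} (φ : GLK F → R) (g : GLK F)
    {q : (F[X] × F[X]) × (F[X] × F[X])} (hq : q ∈ Dv n m ×ˢ Dv n m') :
    SS φ g q.2 q.1 = SS φ g (inv2 q).1 (inv2 q).2 := by
  obtain ⟨hp, hp'⟩ := Finset.mem_product.1 hq
  obtain ⟨h1, h2, h3, h4⟩ := mem_Dv.1 hp
  obtain ⟨h1', h2', h3', h4'⟩ := mem_Dv.1 hp'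
  obtain ⟨e1, e2, e3, e4, e5, e6⟩ := gg_spec h1 h2'
  obtain ⟨f1, f2, f3, f4, f5, f6⟩ := gg_spec h1' h2
  obtain ⟨v1, v2, v3⟩ := gg_uniq e1 f2 f3 f6
  have hd : SS φ g (inv2 q).1 (inv2 q).2 =
    (Rs (gg (gg q.1.1 q.2.2 * qx q.2.1 q.1.2) (gg q.1.1 q.2.2 * qy q.2.1 q.1.2))).card •
    ∑ w ∈ Rs (qy (gg q.1.1 q.2.2 * qx q.2.1 q.1.2) (gg q.1.1 q.2.2 * qy q.2.1 q.1.2) *
        (gg q.2.1 q.1.2 * qy q.1.1 q.2.2)),
      ff φ g (gg q.1.1 q.2.2 * qx q.2.1 q.1.2 * (gg q.2.1 q.1.2 * qx q.1.1 q.2.2))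
        (gg (gg q.1.1 q.2.2 * qx q.2.1 q.1.2) (gg q.1.1 q.2.2 * qy q.2.1 q.1.2) * w)
        (gg q.2.1 q.1.2 * qy q.1.1 q.2.2 * (gg q.1.1 q.2.2 * qy q.2.1 q.1.2)) := rfl
  have e : SS φ g q.2 q.1 = (Rs (gg q.1.1 q.2.2)).card •
    ∑ w ∈ Rs (qy q.1.1 q.2.2 * q.1.2), ff φ g (q.1.1 * q.2.1) (gg q.1.1 q.2.2 * w)
      (q.1.2 * q.2.2) := rfl
  have k1 : qy q.2.1 q.1.2 * (gg q.2.1 q.1.2 * qy q.1.1 q.2.2) = qy q.1.1 q.2.2 * q.1.2 := by
    calc qy q.2.1 q.1.2 * (gg q.2.1 q.1.2 * qy q.1.1 q.2.2)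
        = qy q.1.1 q.2.2 * (gg q.2.1 q.1.2 * qy q.2.1 q.1.2) := by ring
      _ = _ := by rw [← f5]
  have k2 : gg q.1.1 q.2.2 * qx q.2.1 q.1.2 * (gg q.2.1 q.1.2 * qx q.1.1 q.2.2) =
      q.1.1 * q.2.1 := by
    calc gg q.1.1 q.2.2 * qx q.2.1 q.1.2 * (gg q.2.1 q.1.2 * qx q.1.1 q.2.2)
        = (gg q.1.1 q.2.2 * qx q.1.1 q.2.2) * (gg q.2.1 q.1.2 * qx q.2.1 q.1.2) := by ring
      _ = _ := by rw [← e4, ← f4]
  have k3 : gg q.2.1 q.1.2 * qy q.1.1 q.2.2 * (gg q.1.1 q.2.2 * qy q.2.1 q.1.2) =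
      q.1.2 * q.2.2 := by
    calc gg q.2.1 q.1.2 * qy q.1.1 q.2.2 * (gg q.1.1 q.2.2 * qy q.2.1 q.1.2)
        = (gg q.2.1 q.1.2 * qy q.2.1 q.1.2) * (gg q.1.1 q.2.2 * qy q.1.1 q.2.2) := by ring
      _ = _ := by rw [← e5, ← f5]
  rw [hd, e, v1, v3, k1, k2, k3]

theorem comp_comm (hLAU : LAUStmt) (hMTX : MTXStmt) (n m m' : F[X]) (φ : GLK F → R)
    (hφ : Invt n φ) : hecke n m (hecke n m' φ) = hecke n m' (hecke n m φ) := by
  funext g
  have h1 : ∀ m m' : F[X], hecke n m (hecke n m' φ) g =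
      ∑ p ∈ Dv n m, ∑ p' ∈ Dv n m', SS φ g p p' := by
    intro m m'
    rw [comp_eq hLAU hMTX]
    exact Finset.sum_congr rfl fun p hp => Finset.sum_congr rfl fun p' hp' =>
      inner_eq hLAU hMTX hφ g hp hp'
  rw [h1, h1, Finset.sum_comm (s := Dv n m'), ← Finset.sum_product', ← Finset.sum_product']
  symm
  exact Finset.sum_nbij' inv2 inv2 (fun q hq => inv2_mem hq) (fun q hq => inv2_mem hq)
    (fun q hq => inv2_inv2 hq) (fun q hq => inv2_inv2 hq) (fun q hq => SS_inv2 φ g hq)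

theorem card_Rs_one : (Rs (1 : F[X])).card = 1 := by
  rw [Finset.card_eq_one]
  refine ⟨0, ?_⟩
  ext b
  rw [mem_Rs, Finset.mem_singleton, Polynomial.degree_one]
  constructor
  · intro h
    by_contra hb
    exact absurd (Polynomial.zero_le_degree_iff.2 hb) (not_le.2 h)
  · rintro rfl
    rw [Polynomial.degree_zero]
    exact WithBot.bot_lt_coe 0

theorem Dv_self {n : F[X]} (hn : n.Monic) : Dv n n = {(1, n)} := by
  ext ⟨a, d⟩
  rw [mem_Dv, Finset.mem_singleton]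
  constructor
  · rintro ⟨h1, h2, h3, h4⟩
    have h5 : IsUnit a := h4.isUnit_of_dvd' dvd_rfl ⟨d, h3.symm⟩
    have h6 : a = 1 := h1.eq_one_of_isUnit h5
    have h1' : a = 1 := h6
    subst h1'
    simp only [one_mul] at h3
    rw [h3]
  · intro h
    simp only [Prod.mk.injEq] at h
    obtain ⟨rfl, rfl⟩ := h
    exact ⟨Polynomial.monic_one, hn, one_mul _, isCoprime_one_left⟩

theorem comp_self (hLAU : LAUStmt) (hMTX : MTXStmt) (n m' : F[X]) (hn : n.Monic)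
    (φ : GLK F → R) (hφ : Invt n φ) :
    hecke n (n * m') φ = hecke n n (hecke n m' φ) := by
  funext g
  rw [comp_eq hLAU hMTX, Dv_self hn, Finset.sum_singleton]
  have h1 : hecke n (n * m') φ g =
      ∑ P ∈ Dv n (n * m'), ∑ B ∈ Rs P.2, ff φ g P.1 B P.2 := by
    unfold hecke
    rw [sum_HIdx]
    rfl
  rw [h1]
  symm
  refine Finset.sum_nbij' (fun p => (p.1, n * p.2)) (fun P => (P.1, P.2 /ₘ n)) ?_ ?_ ?_ ?_ ?_
  · rintro ⟨a, d⟩ hp
    obtain ⟨h1, h2, h3, h4⟩ := mem_Dv.1 hp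
    refine mem_Dv.2 ⟨h1, hn.mul h2, ?_, h4⟩
    show a * (n * d) = n * m'
    rw [← h3]
    ring
  · rintro ⟨A, D⟩ hP
    obtain ⟨h1, h2, h3, h4⟩ := mem_Dv.1 hP
    simp only at h1 h2 h3 h4
    obtain ⟨d, rfl⟩ : n ∣ D := h4.symm.dvd_of_dvd_mul_left ⟨m', h3⟩
    refine mem_Dv.2 ⟨h1, ?_, ?_, h4⟩
    · show (n * d /ₘ n).Monic
      rw [Polynomial.mul_divByMonic_cancel_left d hn]
      exact hn.of_mul_monic_left h2
    · show A * (n * d /ₘ n) = m'
      rw [Polynomial.mul_divByMonic_cancel_left d hn]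
      apply mul_left_cancel₀ hn.ne_zero
      rw [← h3]
      ring
  · rintro ⟨a, d⟩ _
    simp only
    rw [Polynomial.mul_divByMonic_cancel_left d hn]
  · rintro ⟨A, D⟩ hP
    obtain ⟨h1, h2, h3, h4⟩ := mem_Dv.1 hP
    simp only at h1 h2 h3 h4
    obtain ⟨d, rfl⟩ : n ∣ D := h4.symm.dvd_of_dvd_mul_left ⟨m', h3⟩
    simp only
    rw [Polynomial.mul_divByMonic_cancel_left d hn]
  · rintro ⟨a, d⟩ hp
    obtain ⟨h1, h2, h3, h4⟩ := mem_Dv.1 hp
    simp only at h1 h2 h3 h4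
    have h5 := key (F := F) (h := 1) (δ := n) (α := a) (d' := d) Polynomial.monic_one hn h2 h4
      (fun B => ff φ g (a * 1) B (d * n)) (fun x s => by
        rw [one_mul]
        exact ff_per hLAU hMTX hφ g (mul_ne_zero h1.ne_zero one_ne_zero)
          (mul_ne_zero h2.ne_zero hn.ne_zero) x s)
    simp only [one_mul, card_Rs_one, one_smul] at h5
    simp only
    rw [h5, mul_one, mul_comm d n]

end hecke

theorem hmu (hLAU : LAUStmt) (hMTX : MTXStmt) : HMUStmt := by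
  intro F _ _ R _ n hn φ _ hφ
  refine ⟨fun m m' _ _ => comp_comm hLAU hMTX n m m' φ hφ, fun _ m' _ => ?_⟩
  exact comp_self hLAU hMTX n m' hn φ hφ

end Pool.Agent.HK.H50
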